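import Pool.Agent.H41.SS.Targets

/-!
# MP_c62aed_lc, random k-CNFs, exact savings, row WID: the width
-/

set_option autoImplicit false

open Finset Pool.Agent.H97.RK Pool.Agent.H97.RL Pool.Agent.H41.SS

namespace Pool.Agent.H22.SSM

private theorem falsified_congr' {n : ℕ} {C : Clause n} {y z : Fin n → Bool}
    (hy : Falsified C y) (h : ∀ u ∈ vs C, z u = y u) : Falsified C z := by
  intro l hl
  have h1 := hy l hl
  rw [h l.1 (by unfold vs; exact mem_image_of_mem _ hl)]
  exact h1

theorem pf_WID (hINI : Pool.Agent.H41.SS.T_INI) (hSTP : Pool.Agent.H41.SS.T_STP)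
    (hRSR : Pool.Agent.H41.SS.T_RSR) : Pool.Agent.H41.SS.T_WID := by
  intro n k m F D d w hD hDw hwd hEx hGd S r line rule href
  by_contra hcon
  push Not at hcon
  have key : ∀ i, i < S → ¬ ∃ (y : Fin n → Bool) (W : Finset (Fin n)) (J : Finset (Fin m)),
      Sta F D 0 y (vs (line i)) W J ∧ Falsified (line i) y := by
    intro i
    induction i using Nat.strong_induction_on with
    | _ i ih =>
      intro hi
      rintro ⟨y, W, J, hst, hfl⟩
      have hc := hcon i hi
      obtain ⟨-, i', y', A', W', J', hi', hst', -, hfl', hvs', -⟩ :=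
        hSTP n k m F D d w 0 (by omega) S r line rule href i y y (vs (line i)) W J hi (hGd y)
          hst (fun _ _ => rfl) hfl (Subset.refl _) (by omega)
      have hiS : i' < S := by omega
      have hc' := hcon i' hiS
      obtain ⟨y'', W'', J'', hy'', -, hst''⟩ :=
        hRSR n k m F D d w 0 hDw y' y' A' (vs (line i')) W' J' (hGd y') hst' hvs'
          (fun _ _ => rfl) (by omega)
      exact ih i' hi' hiS ⟨y'', W'', J'', hst'', falsified_congr' hfl' hy''⟩
  obtain ⟨hr, hline, -⟩ := href
  refine key r hr ⟨fun _ => false, ∅, ∅, ?_, ?_⟩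
  · have h0 : vs (line r) = ∅ := by
      rw [hline]
      unfold vs
      exact image_empty _
    rw [h0]
    exact hINI n k m F D hD hEx _
  · rw [hline]
    intro l hl
    exact absurd hl (notMem_empty _)

end Pool.Agent.H22.SSM
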